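import Pool.Agent.R319.WB5

/-!
# The pair correlation conjecture with bounded error, unconditionally, in every window

No hypothesis is assumed.  The number of pairs of ordinates in `(0, T]` with normalised difference
in `[α, β]` differs from the conjectured value by at most `C T log T`, uniformly in all windows
`0 < α < β` with `β log β ≤ B log T`; so the relative error is `O(1 / (β - α))`.
-/

namespace Pool.Agent.Results.MP_8958e8_nt.BoundedError

/-- the nontrivial zeros of zeta with ordinate in `(0, T]` -/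
def zeros (T : ℝ) : Set ℂ :=
  {s : ℂ | riemannZeta s = 0 ∧ 0 < s.re ∧ s.re < 1 ∧ 0 < s.im ∧ s.im ≤ T}

/-- the number of ordered pairs of zeros with ordinates in `(0, T]`, counted with multiplicity,
with difference of the ordinates times `log T / 2π` in `[α, β]` -/
noncomputable def N (T α β : ℝ) : ℕ :=
  ∑ᶠ s ∈ zeros T, ∑ᶠ s' ∈ {s' : ℂ | s' ∈ zeros T ∧
    α ≤ (s.im - s'.im) * Real.log T / (2 * Real.pi) ∧
    (s.im - s'.im) * Real.log T / (2 * Real.pi) ≤ β},
    analyticOrderNatAt riemannZeta s * analyticOrderNatAt riemannZeta s'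

lemma zeros_eq (T : ℝ) : zeros T = H370.zset riemannZeta 0 T := by
  ext s
  simp only [zeros, H370.zset, Set.mem_ofPred_eq]
  tauto

/-- the sets of zeros are finite -/
theorem zeros_finite (T : ℝ) : (zeros T).Finite := by
  rw [zeros_eq]
  exact H370.zeta_zeros_finite T

open Pool.Agent.R319.WB Pool.Agent.TH850.UV in
lemma N_eq {T : ℝ} (hT : 1 < T) (α β : ℝ) : (N T α β : ℝ) =
    W T (fun x => if 2 * Real.pi * α / Real.log T ≤ x ∧ x ≤ 2 * Real.pi * β / Real.log T
      then 1 else 0) := by
  classical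
  have hL : 0 < Real.log T := Real.log_pos hT
  have hpi := Real.pi_pos
  unfold N W
  rw [finsum_mem_eq_finite_toFinset_sum _ (zeros_finite T)]
  have e : (zeros_finite T).toFinset = ZT T := by
    ext s
    rw [Set.Finite.mem_toFinset, mem_ZT]
    simp only [zeros, Set.mem_ofPred_eq]
    tauto
  rw [e]
  push_cast
  refine Finset.sum_congr rfl fun s _ => ?_
  have hfin' : {s' : ℂ | s' ∈ zeros T ∧
      α ≤ (s.im - s'.im) * Real.log T / (2 * Real.pi) ∧
      (s.im - s'.im) * Real.log T / (2 * Real.pi) ≤ β}.Finite := (zeros_finite T).subset fun _ h => h.1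
  rw [finsum_mem_eq_finite_toFinset_sum _ hfin']
  have e2 : hfin'.toFinset = (ZT T).filter (fun s' : ℂ =>
      2 * Real.pi * α / Real.log T ≤ s.im - s'.im ∧ s.im - s'.im ≤ 2 * Real.pi * β / Real.log T) := by
    ext s'
    rw [Set.Finite.mem_toFinset, Finset.mem_filter, ← e, Set.Finite.mem_toFinset]
    have h1 : α ≤ (s.im - s'.im) * Real.log T / (2 * Real.pi) ↔
        2 * Real.pi * α / Real.log T ≤ s.im - s'.im := by
      rw [le_div_iff₀ (by positivity), div_le_iff₀ hL]
      constructor <;> intro h <;> linarith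
    have h2 : (s.im - s'.im) * Real.log T / (2 * Real.pi) ≤ β ↔
        s.im - s'.im ≤ 2 * Real.pi * β / Real.log T := by
      rw [div_le_iff₀ (by positivity), le_div_iff₀ hL]
      constructor <;> intro h <;> linarith
    simp only [Set.mem_ofPred_eq]
    rw [h1, h2]
  rw [e2, Finset.sum_filter]
  push_cast
  refine Finset.sum_congr rfl fun s' _ => ?_
  unfold mS H370.mult
  split_ifs <;> simp

lemma kernel_bound {α β : ℝ} (hα : 0 < α) (hαβ : α ≤ β) :
    |(∫ u in α..β, (1 - (Real.sin (Real.pi * u) / (Real.pi * u)) ^ 2)) - (β - α)| ≤ Real.pi := by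
  have hpi := Real.pi_pos
  have hcont : ContinuousOn (fun u : ℝ => (Real.sin (Real.pi * u) / (Real.pi * u)) ^ 2)
      (Set.uIcc α β) := by
    rw [Set.uIcc_of_le hαβ]
    apply ContinuousOn.pow
    apply ContinuousOn.div (by fun_prop) (by fun_prop)
    intro u hu
    have : 0 < u := hα.trans_le hu.1
    positivity
  have hint := hcont.intervalIntegrable (μ := MeasureTheory.volume)
  rw [intervalIntegral.integral_sub (by simp) hint, intervalIntegral.integral_const, smul_eq_mul,
    mul_one]
  have h0 : 0 ≤ ∫ u in α..β, (Real.sin (Real.pi * u) / (Real.pi * u)) ^ 2 :=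
    intervalIntegral.integral_nonneg hαβ fun u _ => sq_nonneg _
  have h1 : ∫ u in α..β, (Real.sin (Real.pi * u) / (Real.pi * u)) ^ 2 ≤
      ∫ u in α..β, 2 * (1 / (1 + u ^ 2)) := by
    refine intervalIntegral.integral_mono_on hαβ hint ?_ fun u hu => ?_
    · apply Continuous.intervalIntegrable
      apply Continuous.mul continuous_const
      apply Continuous.div continuous_const (by fun_prop)
      intro u
      positivity
    · have hu0 : 0 < u := hα.trans_le hu.1
      have h2 : Real.sin (Real.pi * u) ^ 2 ≤ (Real.pi * u) ^ 2 := by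
        have h22 : |Real.sin (Real.pi * u)| ≤ |Real.pi * u| := Real.abs_sin_le_abs
        exact sq_le_sq.2 h22
      have h3 : Real.sin (Real.pi * u) ^ 2 ≤ 1 := Real.sin_sq_le_one _
      rw [div_pow, mul_one_div, div_le_div_iff₀ (by positivity) (by positivity)]
      have h4 : 1 ≤ Real.pi ^ 2 := by nlinarith [Real.pi_gt_three]
      have h5 : Real.sin (Real.pi * u) ^ 2 * u ^ 2 ≤ (Real.pi * u) ^ 2 := by
        have h6 : Real.sin (Real.pi * u) ^ 2 * u ^ 2 ≤ 1 * u ^ 2 :=
          mul_le_mul_of_nonneg_right h3 (sq_nonneg _)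
        have h7 : 1 * u ^ 2 ≤ Real.pi ^ 2 * u ^ 2 := mul_le_mul_of_nonneg_right h4 (sq_nonneg _)
        rw [mul_pow]
        linarith
      nlinarith
  have h2 : ∫ u in α..β, 2 * (1 / (1 + u ^ 2)) = 2 * (Real.arctan β - Real.arctan α) := by
    rw [intervalIntegral.integral_const_mul, integral_one_div_one_add_sq]
  have h3 := Real.arctan_lt_pi_div_two β
  have h4 : 0 ≤ Real.arctan α := by
    rw [← Real.arctan_zero]
    exact Real.arctan_strictMono.monotone hα.le
  rw [h2] at h1
  rw [abs_le]
  constructor <;> linarith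

/-- **The pair correlation conjecture holds in every window with bounded error**,
unconditionally. -/
theorem result : ∀ B : ℝ, ∃ C T₀ : ℝ, ∀ T : ℝ, T₀ ≤ T → ∀ α β : ℝ, 0 < α → α < β →
    β * Real.log β ≤ B * Real.log T →
    |(N T α β : ℝ) - T * Real.log T / (2 * Real.pi) *
      ∫ u in α..β, (1 - (Real.sin (Real.pi * u) / (Real.pi * u)) ^ 2)| ≤ C * (T * Real.log T) := by
  intro B
  obtain ⟨C, T0, hC, hT0, h⟩ := Pool.Agent.R319.WB.main (max B 1) (le_max_right _ _)
  refine ⟨C + 1, T0, fun T hT α β hα hαβ hβ => ?_⟩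
  have hT10 : 10 ≤ T := hT0.trans hT
  have hT1 : 1 < T := by linarith
  have hL : 0 < Real.log T := Real.log_pos hT1
  have hpi := Real.pi_pos
  have h1 := h T hT α β hα hαβ (hβ.trans (mul_le_mul_of_nonneg_right (le_max_left _ _) hL.le))
  rw [← N_eq hT1] at h1
  have h2 := kernel_bound hα hαβ.le
  set I := ∫ u in α..β, (1 - (Real.sin (Real.pi * u) / (Real.pi * u)) ^ 2) with hI
  set M := T * Real.log T with hM
  have hM0 : 0 < M := by positivity
  have h3 : |M / (2 * Real.pi) * (I - (β - α))| ≤ M := by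
    rw [abs_mul, abs_of_pos (by positivity)]
    calc M / (2 * Real.pi) * |I - (β - α)| ≤ M / (2 * Real.pi) * Real.pi :=
          mul_le_mul_of_nonneg_left h2 (by positivity)
      _ = M / 2 := by field_simp
      _ ≤ M := by linarith
  have a1 := abs_le.1 h1
  have a2 := abs_le.1 h3
  rw [abs_le]
  constructor
  · nlinarith [a1.1, a2.2]
  · nlinarith [a1.2, a2.1]

end Pool.Agent.Results.MP_8958e8_nt.BoundedError
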