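import Pool.Agent.R320.PC.Lw

/-!
# The law of the numbers of partners of a zero in windows of the normalised difference

No hypothesis is assumed.  In Montgomery's conjecture (Q1) the pairs of ordinates whose normalised
difference lies in a window are counted; that is the mean, over the zeros, of the number of partners
of a zero in the window.  Here the law of this number, when the zero runs over all zeros up to `T`,
is determined for long windows, jointly for any number of windows on both sides of the zero: it is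
asymptotically Gaussian, with the covariances of a logarithmically correlated field, as for the
sine process (density `1 - (sin πu / πu)²` of the pairs).  For one window `(x, y]` the variance is
`π⁻² log (y - x)`; adjacent windows of equal order of length have correlation `-1/2`, distant ones
are asymptotically independent.
-/

open Filter MeasureTheory

namespace Pool.Agent.Results.MP_8958e8_nt.PartnerCountsLaw

/-- multiplicity of `s` as a zero of the Riemann zeta function (order of vanishing at `s`) -/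
noncomputable def zmult (s : ℂ) : ℕ := analyticOrderNatAt riemannZeta s

/-- the number of nontrivial zeros of `ζ` with ordinate in `(0, t]`, with multiplicity -/
noncomputable def NZ (t : ℝ) : ℕ :=
  ∑ᶠ s ∈ {s : ℂ | riemannZeta s = 0 ∧ 0 < s.re ∧ s.re < 1 ∧ 0 < s.im ∧ s.im ≤ t}, zmult s

/-- for `n ≥ 1`: the `n`-th positive ordinate `γ n` of a nontrivial zero of `ζ`, the ordinates being
listed in nondecreasing order and repeated according to multiplicity -/
noncomputable def γ (n : ℕ) : ℝ := sInf {t : ℝ | n ≤ NZ t}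

/-- the number of partners of the `n`-th ordinate in the window `(x, y]`: the number of the indices
`l ≥ 1` with `x < (γ_l - γ_n) log T / 2π ≤ y` -/
noncomputable def partners (T x y : ℝ) (n : ℕ) : ℕ :=
  {l : ℕ | 1 ≤ l ∧ x < (γ l - γ n) * (Real.log T / (2 * Real.pi)) ∧
    (γ l - γ n) * (Real.log T / (2 * Real.pi)) ≤ y}.ncard

/-- `ℓ(u) = log max(1, |u|)` -/
noncomputable def ℓ (u : ℝ) : ℝ := Real.log (max 1 |u|)

/-- the covariance (without the factor `π⁻²`) for the windows `(x, y]` and `(x', y']` -/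
noncomputable def κ (x y x' y' : ℝ) : ℝ := (ℓ (y - x') + ℓ (x - y') - ℓ (y - y') - ℓ (x - x')) / 2

lemma partners_eq {T x y : ℝ} (hT : 1 < T) (hxy : x ≤ y) (n : ℕ) :
    (partners T x y n : ℝ) = (SG.NZ (SG.ord n + y * (2 * Real.pi / Real.log T)) : ℝ) -
      SG.NZ (SG.ord n + x * (2 * Real.pi / Real.log T)) := by
  have hpi := Real.pi_pos
  have hL : 0 < Real.log T := Real.log_pos hT
  obtain ⟨h, hh⟩ : ∃ h : ℝ, h = 2 * Real.pi / Real.log T := ⟨_, rfl⟩
  have hh0 : 0 < h := by rw [hh]; positivity
  have hhi : Real.log T / (2 * Real.pi) = 1 / h := by rw [hh]; field_simp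
  have hmono : SG.NZ (SG.ord n + x * h) ≤ SG.NZ (SG.ord n + y * h) := by
    apply SG.NZ_mono
    nlinarith
  have hset : {l : ℕ | 1 ≤ l ∧ x < (γ l - γ n) * (Real.log T / (2 * Real.pi)) ∧
      (γ l - γ n) * (Real.log T / (2 * Real.pi)) ≤ y} =
      ((Finset.Ioc (SG.NZ (SG.ord n + x * h)) (SG.NZ (SG.ord n + y * h)) : Finset ℕ) : Set ℕ) := by
    ext l
    rw [Set.mem_ofPred_eq, Finset.mem_coe, Finset.mem_Ioc, hhi]
    have e1 : ∀ z : ℝ, (γ l - γ n) * (1 / h) ≤ z ↔ SG.ord l ≤ SG.ord n + z * h := by
      intro z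
      rw [mul_one_div, div_le_iff₀ hh0]
      show SG.ord l - SG.ord n ≤ z * h ↔ _
      constructor <;> intro h1 <;> linarith
    constructor
    · rintro ⟨h1, h2, h3⟩
      refine ⟨?_, (SG.ord_le_iff h1 _).1 ((e1 y).1 h3)⟩
      by_contra hcon
      push Not at hcon
      have h4 := (e1 x).2 ((SG.ord_le_iff h1 _).2 hcon)
      linarith
    · rintro ⟨h1, h2⟩
      have hl : 1 ≤ l := by omega
      refine ⟨hl, ?_, (e1 y).2 ((SG.ord_le_iff hl _).2 h2)⟩
      by_contra hcon
      push Not at hcon
      have h4 := (SG.ord_le_iff hl _).1 ((e1 x).1 hcon)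
      omega
  unfold partners
  rw [hset, Set.ncard_coe_finset, Nat.card_Ioc, ← hh, Nat.cast_sub hmono]

/-- **The law of the numbers of partners, unconditionally.**  For all real `c_1, ..., c_k`, every
bounded continuous `f`, every real `B` and `ε > 0` there is `m₀` such that for all integers `m ≥ m₀`,
all real `T ≥ 1` with `2m log 2m ≤ B log T` and all windows `(x_i, y_i]` in `[-(m - 1), m - 1]` the
mean over all zeros `γ_n ≤ T` of `f (∑ c_i (P_i - (y_i - x_i)) / (√(log 2m) / π))`, `P_i` being the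
number of partners of `γ_n` in the window `(x_i, y_i]`, differs by at most `ε` from the expectation
of `f` for the centred Gaussian law of variance `∑ c_i c_j κ (x_i, y_i, x_j, y_j) / log 2m`. -/
theorem result {k : ℕ} (c : Fin k → ℝ) (f : ℝ → ℝ) (hf : Continuous f) (hb : ∃ A, ∀ x, |f x| ≤ A)
    (B ε : ℝ) (hε : 0 < ε) :
    ∃ m₀ : ℕ, ∀ m : ℕ, m₀ ≤ m → ∀ T : ℝ, 1 ≤ T →
      2 * (m : ℝ) * Real.log (2 * m) ≤ B * Real.log T →
      ∀ x y : Fin k → ℝ, (∀ i, -((m : ℝ) - 1) ≤ x i ∧ x i ≤ y i ∧ y i ≤ (m : ℝ) - 1) →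
      |(∑ n ∈ Finset.Icc 1 (NZ T), f ((∑ i, c i * ((partners T (x i) (y i) n : ℝ) - (y i - x i))) /
          (Real.sqrt (Real.log (2 * m)) / Real.pi))) / NZ T -
        ∫ u, f u ∂(ProbabilityTheory.gaussianReal 0
          ((∑ i, ∑ j, c i * c j * κ (x i) (y i) (x j) (y j)) / Real.log (2 * m)).toNNReal)| ≤ ε := by
  obtain ⟨A, hA⟩ := hb
  have hB1 : 1 ≤ max B 1 := le_max_right _ _
  obtain ⟨m₀, h⟩ := ((Pool.Agent.R320.PC.lawC (Pool.Agent.R320.PC.cW c) (max B 1) hB1 f hf A hA ε
    hε).and ((Pool.Agent.R320.KL.two_top.eventually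
      (Pool.Agent.Y743.CL.bigT (max B 1) hB1 2)))).exists_forall_of_atTop
  refine ⟨m₀, fun m hm T hT hmT x y hxy => ?_⟩
  obtain ⟨h1, h2⟩ := h m hm
  have hlT : 0 ≤ Real.log T := Real.log_nonneg hT
  have hcond : ((2 * m : ℕ) : ℝ) * Real.log (2 * m : ℕ) ≤ max B 1 * Real.log T := by
    push_cast
    refine hmT.trans ?_
    exact mul_le_mul_of_nonneg_right (le_max_left _ _) hlT
  have hT2 := h2 T hT hcond
  have h3 := h1 T hT hcond (Fin.append y x) (by
    intro i
    refine Fin.addCases (fun j => ?_) (fun j => ?_) i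
    · rw [Fin.append_left, abs_le]
      obtain ⟨a1, a2, a3⟩ := hxy j
      constructor <;> linarith
    · rw [Fin.append_right, abs_le]
      obtain ⟨a1, a2, a3⟩ := hxy j
      constructor <;> linarith)
  rw [Pool.Agent.R320.PC.QR_cW] at h3
  simp only [Pool.Agent.R320.PC.fc_cW] at h3
  have e1 : ∀ n, (∑ i, c i * ((partners T (x i) (y i) n : ℝ) - (y i - x i))) /
      (Real.sqrt (Real.log (2 * m)) / Real.pi) =
      (∑ j, c j * Pool.Agent.R320.KL.WW T (x j) (y j) n) / Pool.Agent.Y743.CL.lm (2 * m) := by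
    intro n
    unfold Pool.Agent.Y743.CL.lm Pool.Agent.R320.KL.WW
    push_cast
    congr 1
    refine Finset.sum_congr rfl fun i _ => ?_
    rw [partners_eq (by linarith) (hxy i).2.1]
  simp only [e1]
  have e2 : (2 * (m : ℝ)) = ((2 * m : ℕ) : ℝ) := by push_cast; rfl
  rw [e2, div_eq_inv_mul]
  exact h3

end Pool.Agent.Results.MP_8958e8_nt.PartnerCountsLaw
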