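import Pool.Agent.R482.BSP.Main

/-!
# Pairs of simple critical zeros of zeta in Bohr sets, in all long windows of the normalised distance

Unconditionally: for every `ε > 0` there is `L` such that for all linearly independent (over `ℚ`) frequencies `α` and
all open subsets `U` of the torus there are `κ > 0` and `T₀` such that for all `T ≥ T₀` and all `0 ≤ a`,
`a + L ≤ b ≤ κ log T` at least `(0.345 |U| - ε) (b - a) N(T, 2T)` ordered pairs of ordinates `x, y ∈ (T, 2T]` of SIMPLE zeros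
ON the critical line satisfy `α x, α y mod 1 ∈ U` and `a < (y - x) log T / 2π < b`.
-/

open Filter Topology Complex MeasureTheory

namespace Pool.Agent.Results.MP_8958e8_nt.SimplePairsInBohrSets

/-- the nontrivial zeros of zeta with ordinate in `(T₁, T₂]` -/
def zeros (T₁ T₂ : ℝ) : Set ℂ :=
  {s : ℂ | riemannZeta s = 0 ∧ 0 < s.re ∧ s.re < 1 ∧ T₁ < s.im ∧ s.im ≤ T₂}

/-- the multiplicity of a zero -/
noncomputable def mult (s : ℂ) : ℕ := analyticOrderNatAt riemannZeta s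

/-- the number of nontrivial zeros with ordinate in `(T₁, T₂]`, counted with multiplicity -/
noncomputable def N (T₁ T₂ : ℝ) : ℕ := ∑ᶠ s ∈ zeros T₁ T₂, mult s

/-- the point `α t mod 1` of the torus `(ℝ/ℤ)^k` -/
def pt {k : ℕ} (α : Fin k → ℝ) (t : ℝ) : UnitAddTorus (Fin k) :=
  fun j => ((α j * t : ℝ) : UnitAddCircle)

/-- the normalised Haar measure of the torus -/
noncomputable def haar (k : ℕ) : Measure (UnitAddTorus (Fin k)) :=
  Measure.pi fun _ => AddCircle.haarAddCircle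

/-- the ordinates `t ∈ (T, 2T]` of the simple zeros `1/2 + i t` on the critical line with `α t mod 1 ∈ U` -/
def simple {k : ℕ} (α : Fin k → ℝ) (U : Set (UnitAddTorus (Fin k))) (T : ℝ) : Set ℝ :=
  {t : ℝ | T < t ∧ t ≤ 2 * T ∧ riemannZeta (1 / 2 + I * t) = 0 ∧ deriv riemannZeta (1 / 2 + I * t) ≠ 0 ∧
    pt α t ∈ U}

/-- the number of ordered pairs `(x, y)` of such ordinates with `a < (y - x) log T / 2π < b` -/
noncomputable def pairs {k : ℕ} (α : Fin k → ℝ) (U : Set (UnitAddTorus (Fin k))) (a b T : ℝ) : ℕ :=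
  {p : ℝ × ℝ | p.1 ∈ simple α U T ∧ p.2 ∈ simple α U T ∧ a < (p.2 - p.1) * Real.log T / (2 * Real.pi) ∧
    (p.2 - p.1) * Real.log T / (2 * Real.pi) < b}.ncard

open H370 in
lemma zeros_eq (T₁ T₂ : ℝ) : zeros T₁ T₂ = H370.zset riemannZeta T₁ T₂ := by
  ext s
  simp only [zeros, H370.zset, Set.mem_ofPred_eq]
  tauto

lemma N_eq (T₁ T₂ : ℝ) : N T₁ T₂ = H370.NN riemannZeta T₁ T₂ := by
  unfold N H370.NN H370.mult mult
  rw [zeros_eq]

open Pool.Agent.R482.BSP in
lemma pairs_eq {k : ℕ} (α : Fin k → ℝ) (U : Set (UnitAddTorus (Fin k))) (a b : ℝ) {T : ℝ} (hT : 1 < T)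
    (hT1 : 1 ≤ T) : (pairs α U a b T : ℝ) =
      PP (SZ_finite (A := T) (B := 2 * T) hT1 (fun t => TH803TW.torusPt α t ∈ U)).toFinset
        (2 * Real.pi * a / Real.log T) (2 * Real.pi * b / Real.log T) := by
  classical
  have hL : 0 < Real.log T := Real.log_pos hT
  have hpi := Real.pi_pos
  set S := (SZ_finite (A := T) (B := 2 * T) hT1 (fun t => TH803TW.torusPt α t ∈ U)).toFinset with hS
  have hmem : ∀ t : ℝ, t ∈ S ↔ t ∈ simple α U T := by
    intro t
    rw [hS, Set.Finite.mem_toFinset]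
    constructor
    · rintro ⟨⟨h1, h2, h3, h4⟩, h5⟩
      exact ⟨h1, h2, h3, h4, h5⟩
    · rintro ⟨h1, h2, h3, h4, h5⟩
      exact ⟨⟨h1, h2, h3, h4⟩, h5⟩
  have hiff : ∀ x y : ℝ, (a < (y - x) * Real.log T / (2 * Real.pi) ∧ (y - x) * Real.log T / (2 * Real.pi) < b) ↔
      (2 * Real.pi * a / Real.log T < y - x ∧ y - x < 2 * Real.pi * b / Real.log T) := by
    intro x y
    rw [lt_div_iff₀ (by positivity), div_lt_iff₀ (by positivity), div_lt_iff₀ hL, lt_div_iff₀ hL,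
      mul_comm a, mul_comm b]
  have hset : {p : ℝ × ℝ | p.1 ∈ simple α U T ∧ p.2 ∈ simple α U T ∧
      a < (p.2 - p.1) * Real.log T / (2 * Real.pi) ∧ (p.2 - p.1) * Real.log T / (2 * Real.pi) < b} =
      (((S ×ˢ S).filter (fun p : ℝ × ℝ => 2 * Real.pi * a / Real.log T < p.2 - p.1 ∧
        p.2 - p.1 < 2 * Real.pi * b / Real.log T) : Finset (ℝ × ℝ)) : Set (ℝ × ℝ)) := by
    ext p
    rw [Finset.mem_coe, Finset.mem_filter, Finset.mem_product, hmem, hmem, Set.mem_ofPred_eq, hiff]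
    tauto
  unfold pairs
  rw [hset, Set.ncard_coe_finset]
  unfold PP
  rw [Finset.card_filter, Finset.sum_product]
  push_cast
  rfl

/-- **pairs of simple critical zeros in Bohr sets** -/
theorem result (ε : ℝ) (hε : 0 < ε) : ∃ L : ℝ, 0 < L ∧
    ∀ (k : ℕ) (α : Fin k → ℝ), (∀ n : Fin k → ℤ, ∑ j, (n j : ℝ) * α j = 0 → n = 0) →
    ∀ U : Set (UnitAddTorus (Fin k)), IsOpen U → ∃ κ T₀ : ℝ, 0 < κ ∧
      ∀ T : ℝ, T₀ ≤ T → ∀ a b : ℝ, 0 ≤ a → a + L ≤ b → b ≤ κ * Real.log T →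
        (345 / 1000 * (haar k U).toReal - ε) * (b - a) * (N T (2 * T) : ℝ) ≤ (pairs α U a b T : ℝ) := by
  obtain ⟨L, hL, h⟩ := Pool.Agent.R482.BSP.pairs_bohr (ε := min ε 1) (lt_min hε one_pos) (min_le_right _ _)
  refine ⟨L, hL, fun k α hα U hU => ?_⟩
  obtain ⟨κ, T0, hκ, hT0, h1⟩ := h k α hα U hU
  refine ⟨κ, T0, hκ, fun T hT a b ha hab hb => ?_⟩
  have hT10 : 10 ≤ T := hT0.trans hT
  have hT1 : 1 ≤ T := by linarith
  rw [pairs_eq α U a b (by linarith) hT1, N_eq]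
  refine le_trans ?_ (h1 T hT hT1 a b ha hab hb)
  have e : haar k U = TH803TW.haarT k U := rfl
  rw [e]
  have h2 : 0 ≤ b - a := by linarith
  have h3 : (0 : ℝ) ≤ (H370.NN riemannZeta T (2 * T) : ℝ) := Nat.cast_nonneg _
  apply mul_le_mul_of_nonneg_right _ h3
  apply mul_le_mul_of_nonneg_right _ h2
  have := min_le_left ε 1
  linarith

end Pool.Agent.Results.MP_8958e8_nt.SimplePairsInBohrSets
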