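import Pool.Agent.R960.GI.WinF

open Filter Set MeasureTheory

namespace Pool.Agent.Results.MP_8958e8_nt.WindowRigidity

/-- multiplicity of `s` as a zero of the Riemann zeta function (order of vanishing at `s`) -/
noncomputable def zmult (s : ℂ) : ℕ := analyticOrderNatAt riemannZeta s

/-- the number of nontrivial zeros of `ζ` with ordinate in `(0, t]`, with multiplicity -/
noncomputable def NZ (t : ℝ) : ℕ :=
  ∑ᶠ s ∈ {s : ℂ | riemannZeta s = 0 ∧ 0 < s.re ∧ s.re < 1 ∧ 0 < s.im ∧ s.im ≤ t}, zmult s

/-- the number of ordinates in the window `(t, t + h]`, with multiplicity -/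
noncomputable def cnt (h t : ℝ) : ℤ := (NZ (t + h) : ℤ) - NZ t

/-- the weights: `lam J 0 = 1`, `0 ≤ lam J k ≤ 1`, `lam J k → 1` as `J → ∞` for each `k`, and
`lam J k = 0` for `k ≥ 2 ^ J` -/
noncomputable def lam (J k : ℕ) : ℝ := (∑ j ∈ Finset.Icc 1 J, max 0 (1 - (k : ℝ) / 2 ^ j)) / J

/-- the prediction of the number of ordinates in `(t, t + h]`, whose mean value is `a`, from the
numbers of ordinates in the `2 ^ J - 1` preceding and the `2 ^ J - 1` following windows of the same
length -/
noncomputable def pred (a h : ℝ) (J : ℕ) (t : ℝ) : ℝ :=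
  a - ∑ k ∈ Finset.Ico 1 (2 ^ J), lam J k * ((cnt h (t - k * h) - a) + (cnt h (t + k * h) - a))

/-- Number rigidity of the zeros of `ζ` at the scale of the mean spacing, unconditionally. Let
`h = 2π a / log T`, so that a window of length `h` in `[T, 2T]` holds about `a` ordinates on average.
The number of ordinates in the window `(t, t + h]` is, with an error at most `C / J` in mean square
over `t ∈ [T, 2T]`, a fixed linear combination of the numbers of ordinates in the neighbouring
windows, and it is equal to the rounded value of this combination for all `t ∈ [T, 2T]` outside a set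
of measure at most `C T / J`. -/
theorem result : ∃ C : ℝ, 0 < C ∧ ∀ a : ℝ, 0 < a → ∀ J : ℕ, 1 ≤ J → Real.log (1 + a) ≤ J →
    ∀ᶠ T : ℝ in atTop,
      (1 / T) * ∫ t in T..(2 * T), ((cnt (2 * Real.pi * a / Real.log T) t : ℝ) -
        pred a (2 * Real.pi * a / Real.log T) J t) ^ 2 ≤ C / J ∧
      volume.real {t : ℝ | T ≤ t ∧ t ≤ 2 * T ∧
        round (pred a (2 * Real.pi * a / Real.log T) J t) ≠
          cnt (2 * Real.pi * a / Real.log T) t} ≤ C / J * T := by
  obtain ⟨C, hC, hmain⟩ := R960.GI.Win.mean_sq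
  refine ⟨4 * C, by linarith, fun a ha J hJ haJ => ?_⟩
  filter_upwards [hmain a ha J hJ haJ, eventually_gt_atTop 0] with T hT hT0
  have hJr : (0 : ℝ) < J := by exact_mod_cast hJ
  obtain ⟨h, hh⟩ : ∃ h, h = 2 * Real.pi * a / Real.log T := ⟨_, rfl⟩
  rw [← hh] at hT ⊢
  have e : ∀ t, (cnt h t : ℝ) - pred a h J t = R960.GI.Win.D a h J t := by
    intro t
    have e1 : ∀ s, R960.GI.Win.cc a h s = (cnt h s : ℝ) - a := by
      intro s
      show ((NZ (s + h) : ℝ) - NZ s) - a = _
      unfold cnt
      push_cast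
      ring
    have e2 : R960.GI.Win.D a h J t = R960.GI.Win.cc a h t + ∑ k ∈ Finset.Ico 1 (2 ^ J),
      lam J k * (R960.GI.Win.cc a h (t - k * h) + R960.GI.Win.cc a h (t + k * h)) := rfl
    rw [e2]
    simp only [e1]
    unfold pred
    ring
  constructor
  · simp only [e]
    have h1 : C / J ≤ 4 * C / J := by
      apply div_le_div_of_nonneg_right _ hJr.le
      linarith
    refine le_trans ?_ h1
    rw [one_div, inv_mul_le_iff₀ hT0]
    exact hT.trans (le_of_eq (mul_comm _ _))
  · have h1 := R960.GI.Win.exc hT0.le hT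
    have e3 : ∀ t, pred a h J t = (NZ (t + h) : ℝ) - NZ t - R960.GI.Win.D a h J t := by
      intro t
      rw [← e t]
      unfold cnt
      push_cast
      ring
    simp only [e3]
    exact h1

end Pool.Agent.Results.MP_8958e8_nt.WindowRigidity
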